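import Pool.Agent.Q260.DS.Stm

/-! # Project DS (helper260): common facts (helper150) -/

set_option autoImplicit false

namespace Pool.Agent.Q150.DS

open Complex Filter Topology Metric Set
open Pool.Agent.Q260.DS

/-- `Ok` for neighbouring slopes. -/
lemma ok_near {C C1 L L' δ : ℝ} (hC1 : 1 ≤ C1) (hC : 2 * C1 ≤ C) (hL : 2 ≤ L)
    (hL' : L / 2 ≤ L') (h : Ok C L δ) : Ok C1 L' δ := by
  obtain ⟨h1, h2, h3⟩ := h
  have hL'1 : 1 ≤ L' := by linarith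
  refine ⟨h1, h2, ?_⟩
  have hC0 : 0 < C := by linarith
  have hC10 : 0 < C1 := by linarith
  have e1 : L' ^ (δ / C) ≤ L' ^ (δ / C1) := by
    apply Real.rpow_le_rpow_of_exponent_le hL'1
    exact div_le_div_of_nonneg_left h1.le hC10 (by linarith)
  have e2 : (L / 2) ^ (δ / C) ≤ L' ^ (δ / C) :=
    Real.rpow_le_rpow (by linarith) hL' (by positivity)
  have e3 : (L / 2) ^ (δ / C) = L ^ (δ / C) * (1 / 2 : ℝ) ^ (δ / C) := by
    rw [← Real.mul_rpow (by linarith) (by norm_num)]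
    congr 1
    ring
  have e4 : (1 / 2 : ℝ) ≤ (1 / 2 : ℝ) ^ (δ / C) := by
    have : (1 / 2 : ℝ) ^ (1 : ℝ) ≤ (1 / 2 : ℝ) ^ (δ / C) := by
      apply Real.rpow_le_rpow_of_exponent_ge (by norm_num) (by norm_num)
      rw [div_le_one hC0]
      linarith
    simpa using this
  have e5 : C / δ ^ 3 * (1 / 2) ≤ L ^ (δ / C) * (1 / 2 : ℝ) ^ (δ / C) :=
    mul_le_mul h3 e4 (by norm_num) (by positivity)
  have e6 : C1 / δ ^ 3 ≤ C / δ ^ 3 * (1 / 2) := by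
    rw [div_mul_eq_mul_div]
    apply div_le_div_of_nonneg_right _ (by positivity)
    linarith
  calc C1 / δ ^ 3 ≤ C / δ ^ 3 * (1 / 2) := e6
    _ ≤ _ := e5
    _ = _ := e3.symm
    _ ≤ _ := e2
    _ ≤ _ := e1

lemma nz_mono {G : ℂ → ℂ} {θ θ' a b a' b' : ℝ} (h : NZ G θ a b) (h1 : θ ≤ θ')
    (h2 : a ≤ a') (h3 : b' ≤ b) : NZ G θ' a' b' := fun z hz1 hz2 hz3 hz4 =>
  h z (by linarith) hz2 (by linarith) (by linarith)

/-- A constant `δ` is admissible for large slopes. -/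
lemma ok_const {C δ : ℝ} (hC : 1 ≤ C) (hδ : 0 < δ) (hδ1 : δ ≤ 1 / 2) :
    ∃ L0 : ℝ, 1 ≤ L0 ∧ ∀ L : ℝ, L0 ≤ L → Ok C L δ := by
  have h1 : Tendsto (fun L : ℝ => L ^ (δ / C)) atTop atTop :=
    tendsto_rpow_atTop (by positivity : 0 < δ / C)
  obtain ⟨T1, hT1⟩ := eventually_atTop.1 (h1.eventually_ge_atTop (C / δ ^ 3))
  exact ⟨max 1 T1, le_max_left _ _, fun T hT =>
    ⟨hδ, hδ1, hT1 T ((le_max_right _ _).trans hT)⟩⟩

lemma li_cons {A : ℝ} {k : ℕ} {cs : List ℝ} (h : Li A (k + 1) cs) :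
    ∃ c cs', cs = c :: cs' ∧ |c| ≤ A ∧ Li A k cs' := by
  obtain ⟨h1, h2⟩ := h
  cases cs with
  | nil => simp at h1
  | cons c cs' =>
    refine ⟨c, cs', rfl, h2 c (by simp), ?_, fun d hd => h2 d (by simp [hd])⟩
    simpa using h1

lemma li_zero {A : ℝ} {cs : List ℝ} (h : Li A 0 cs) : cs = [] :=
  List.length_eq_zero_iff.1 h.1

/-- heights at a bounded distance -/
lemma slope {K A y0 : ℝ} {f : ℂ → ℂ} {l g : ℝ → ℝ} (hS : Sys K A y0 f l g) (hK : 0 ≤ K) {X T T' : ℝ}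
    (h1 : T - X ≤ T') (h2 : T' ≤ T + X) (hl : 2 * (K * Real.log (2 + X)) ≤ l T) :
    l T / 2 ≤ l T' := by
  have h3 := hS.shift T (T' - T)
  rw [add_sub_cancel] at h3
  have h4 : |T' - T| ≤ X := by rw [abs_le]; constructor <;> linarith
  have h5 : Real.log (2 + |T' - T|) ≤ Real.log (2 + X) :=
    Real.log_le_log (by positivity) (by linarith)
  have h6 : K * Real.log (2 + |T' - T|) ≤ K * Real.log (2 + X) :=
    mul_le_mul_of_nonneg_left h5 hK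
  have h7 := (abs_le.1 h3).1
  linarith

end Pool.Agent.Q150.DS
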