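import Pool.Agent.Q150.DS.Com

/-! # Project DS (helper260), jobs DI and RA (helper150): the dictionary and the rate -/

set_option autoImplicit false

namespace Pool.Agent.Q150.DS

open Complex Filter Topology Metric Set
open Pool.Agent.Q260.DS

theorem t_DI (h1 : S_UP) (h2 : S_DN) : S_DI := by
  intro K A ε k hK hA hε
  obtain ⟨C1, hC1, h3⟩ := h1 K A 0 k hK hA le_rfl
  obtain ⟨C2, hC2, h4⟩ := h2 K A 0 k hK hA le_rfl
  obtain ⟨δ, hδd⟩ : ∃ δ : ℝ, δ = min (1 / 2) (ε / (2 * (C1 + C2))) := ⟨_, rfl⟩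
  have hδ : 0 < δ := by
    rw [hδd]
    apply lt_min (by norm_num)
    positivity
  have hδ1 : δ ≤ 1 / 2 := by rw [hδd]; exact min_le_left _ _
  have hδ2 : (C1 + C2) * δ ≤ ε / 2 := by
    have h5 : δ ≤ ε / (2 * (C1 + C2)) := by rw [hδd]; exact min_le_right _ _
    calc (C1 + C2) * δ ≤ (C1 + C2) * (ε / (2 * (C1 + C2))) :=
          mul_le_mul_of_nonneg_left h5 (by linarith)
      _ = ε / 2 := by
          have : C1 + C2 ≠ 0 := by positivity
          field_simp
  obtain ⟨L3, hL3, h5⟩ := ok_const hC1 hδ hδ1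
  obtain ⟨L4, hL4, h6⟩ := ok_const hC2 hδ hδ1
  have hC1δ : 0 < C1 * δ := by positivity
  have hC2δ : 0 < C2 * δ := by positivity
  refine ⟨(C1 + C2) + (L3 + L4), by linarith, ?_⟩
  intro y0 f l g hS cs hcs
  constructor
  · intro z σ hz hy hT hσ hσz hre
    by_contra hcon
    push Not at hcon
    have hl0 : 0 ≤ l z.im := by linarith
    have hnz : NZ (It f cs) σ (z.im - 4 * k - 0) (z.im + C1 * l z.im) := by
      intro w hw1 hw2 hw3 hw4 hw0
      have := hcon w hw0 hw1 hw2 (by linarith)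
      nlinarith
    have h7 := h3 y0 f l g hS cs hcs z.im σ δ (by linarith) (by linarith) hσ (by linarith)
      (h5 _ (by linarith)) hnz z (by linarith) (by linarith) (by linarith) (by linarith)
    exact h7 hz
  · intro z σ hz hT hσ hσz hre
    by_contra hcon
    push Not at hcon
    have hnz : NZ f σ (z.im - 4 * k - 0) (z.im + 4 * k + 0) := by
      intro w hw1 hw2 hw3 hw4 hw0
      have := hcon w hw0 hw1 hw2
      have h8 : |w.im - z.im| ≤ 4 * k := by rw [abs_le]; constructor <;> linarith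
      linarith
    have h7 := h4 y0 f l g hS cs hcs z.im σ δ (by linarith) hσ (by linarith)
      (h6 _ (by linarith)) hnz z (by linarith) (by linarith) (by linarith) (by linarith)
    exact h7 hz

lemma ll_small (c : ℝ) (hc : 0 < c) : ∃ L0 : ℝ, 1 ≤ L0 ∧ ∀ L : ℝ, L0 ≤ L →
    1 ≤ Real.log (Real.log L) ∧ 1 ≤ Real.log L ∧
    Real.log (Real.log L) / Real.log L ≤ c := by
  have t1 : Tendsto Real.log atTop atTop := Real.tendsto_log_atTop
  have t2 : Tendsto (fun T : ℝ => Real.log (Real.log T)) atTop atTop :=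
    Real.tendsto_log_atTop.comp t1
  have h := Real.isLittleO_log_id_atTop.def hc
  obtain ⟨T1, hT1⟩ := eventually_atTop.1 ((t1.eventually h).and
    ((t2.eventually_ge_atTop 1).and (t1.eventually_ge_atTop 1)))
  refine ⟨max 1 T1, le_max_left _ _, fun T hT => ?_⟩
  obtain ⟨q1, q2, q3⟩ := hT1 T ((le_max_right _ _).trans hT)
  refine ⟨q2, q3, ?_⟩
  rw [id, Real.norm_of_nonneg (by linarith), Real.norm_of_nonneg (by linarith)] at q1
  rw [div_le_iff₀ (by linarith)]
  exact q1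

theorem t_RA (h : S_UP) : S_RA := by
  intro K A k hK hA
  obtain ⟨C1, hC1, hup⟩ := h K A 0 k hK hA le_rfl
  obtain ⟨L0, hL0, h2⟩ := ll_small (1 / (20 * C1 ^ 2)) (by positivity)
  have hC0 : 0 < C1 := by linarith
  refine ⟨20 * C1 ^ 2 + L0, by nlinarith, ?_⟩
  intro y0 f l g hS cs hcs T hy hT hnz z hzT hz hf
  have hC1sq : C1 ≤ C1 ^ 2 := by nlinarith
  obtain ⟨q1, q2, q3⟩ := h2 (l T) (by nlinarith [sq_nonneg C1])
  obtain ⟨a, ha⟩ : ∃ a : ℝ, a = Real.log (l T) := ⟨_, rfl⟩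
  obtain ⟨b, hb⟩ : ∃ b : ℝ, b = Real.log a := ⟨_, rfl⟩
  rw [← ha] at q1 q2 q3 hz
  rw [← hb] at q1 q3 hz
  have ha0 : 0 < a := by linarith
  have hb0 : 0 < b := by linarith
  have hba : 0 < b / a := by positivity
  have hL1 : 1 ≤ l T := by nlinarith [sq_nonneg C1]
  obtain ⟨δ, hδd⟩ : ∃ δ : ℝ, δ = 10 * C1 * (b / a) := ⟨_, rfl⟩
  have hδ : 0 < δ := by rw [hδd]; positivity
  have hδ2 : C1 * δ ≤ 1 / 2 := by
    calc C1 * δ = 10 * C1 ^ 2 * (b / a) := by rw [hδd]; ring
      _ ≤ 10 * C1 ^ 2 * (1 / (20 * C1 ^ 2)) := mul_le_mul_of_nonneg_left q3 (by positivity)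
      _ = 1 / 2 := by field_simp; norm_num
  have hδ1 : δ ≤ 1 / 2 := by nlinarith
  have hok : Ok C1 (l T) δ := by
    refine ⟨hδ, hδ1, ?_⟩
    have e1 : l T ^ (δ / C1) = a ^ 10 := by
      rw [Real.rpow_def_of_pos (by linarith), ← ha, hδd]
      have e2 : a * (10 * C1 * (b / a) / C1) = 10 * b := by field_simp
      rw [e2, hb, show (10 : ℝ) * Real.log a = Real.log (a ^ 10) by
        rw [Real.log_pow]; norm_num, Real.exp_log (by positivity)]
    rw [e1]
    have e3 : C1 / δ ^ 3 ≤ a ^ 3 := by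
      rw [div_le_iff₀ (by positivity)]
      have e4 : a ^ 3 * δ ^ 3 = (10 * C1 * b) ^ 3 := by
        rw [← mul_pow, hδd]
        congr 1
        field_simp
      rw [e4]
      have e5 : C1 ≤ 10 * C1 * b := by nlinarith
      have e6 : 1 ≤ 10 * C1 * b := by nlinarith
      calc C1 ≤ 10 * C1 * b := e5
        _ = (10 * C1 * b) ^ 1 := (pow_one _).symm
        _ ≤ (10 * C1 * b) ^ 3 := pow_le_pow_right₀ e6 (by norm_num)
    exact e3.trans (pow_le_pow_right₀ q2 (by norm_num))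
  have hnz2 : NZ (It f cs) 0 (T - 4 * k - 0) (T + C1 * l T) := by
    refine nz_mono hnz le_rfl (by linarith) ?_
    have : C1 * l T ≤ (20 * C1 ^ 2 + L0) * l T :=
      mul_le_mul_of_nonneg_right (by nlinarith) (by linarith)
    linarith
  have hfin := hup y0 f l g hS cs hcs T 0 δ (by linarith) (by nlinarith) le_rfl (by linarith) hok
    hnz2
  have hzre : 0 + C1 * δ < z.re := by
    have e7 : C1 * δ = 10 * C1 ^ 2 * (b / a) := by rw [hδd]; ring
    have e8 : 10 * C1 ^ 2 * (b / a) < (20 * C1 ^ 2 + L0) * (b / a) :=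
      mul_lt_mul_of_pos_right (by nlinarith) hba
    linarith
  by_cases h22 : z.re ≤ 2
  · exact hfin z hzre h22 (by linarith) (by linarith) hf
  · push Not at h22
    have h9 := hS.lo z.im (z.re : ℂ) (by simp; linarith)
    have e9 : (z.re : ℂ) + I * (z.im : ℂ) = z := by
      rw [mul_comm]; exact Complex.re_add_im z
    rw [e9, hf, norm_zero] at h9
    have h10 := mul_pos (hS.pos z.im)
      (Real.exp_pos (l z.im * (z.re : ℂ).re - K * (1 + ‖(z.re : ℂ)‖ ^ 2)))
    linarith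

end Pool.Agent.Q150.DS
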