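import Pool.Agent.Q150.DS.Com

/-! # Project DS (helper260), job DN (helper150): induction over the forward steps -/

set_option autoImplicit false

namespace Pool.Agent.Q150.DS

open Complex Filter Topology Metric Set
open Pool.Agent.Q260.DS

theorem t_DN (h : S_FW) : S_DN := by
  intro K A X k hK hA hX
  induction k generalizing X with
  | zero =>
    refine ⟨1, le_rfl, ?_⟩
    intro y0 f l g hS cs hcs T θ δ hT hθ hθ1 hok hnz
    rw [li_zero hcs]
    refine nz_mono hnz ?_ ?_ ?_
    · have := hok.1; linarith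
    · simp
    · simp
  | succ k ih =>
    obtain ⟨C2, hC2, h4⟩ := ih (X + 4) (by linarith)
    obtain ⟨C1, hC1, h5⟩ := h K A k hK hA
    have hlog : 0 ≤ K * Real.log (2 + X) :=
      mul_nonneg (by linarith) (Real.log_nonneg (by linarith))
    refine ⟨2 * (C1 + C2) + 2 * (K * Real.log (2 + X)), by linarith, ?_⟩
    intro y0 f l g hS cs hcs T θ δ hT hθ hθ1 hok hnz
    obtain ⟨c, cs', rfl, hc, hcs'⟩ := li_cons hcs
    have hδ := hok.1
    have hC2δ : 0 ≤ C2 * δ := mul_nonneg (by linarith) hδ.le
    have hC1δ : 0 ≤ (C1 - 1) * δ := mul_nonneg (by linarith) hδ.le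
    have hlδ : 0 ≤ K * Real.log (2 + X) * δ := mul_nonneg hlog hδ.le
    have hCδ : (2 * (C1 + C2) + 2 * (K * Real.log (2 + X))) * δ =
        2 * ((C1 - 1) * δ) + 2 * δ + 2 * (C2 * δ) + 2 * (K * Real.log (2 + X) * δ) := by ring
    have hL2 : 2 ≤ l T := by linarith
    have hok2 : Ok C2 (l T) δ := ok_near hC2 (by linarith) hL2 (by linarith) hok
    have hnz2 : NZ (It f cs') (θ + C2 * δ) (T - (X + 4)) (T + (X + 4)) := by
      refine h4 y0 f l g hS cs' hcs' T θ δ (by linarith) hθ (by linarith) hok2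
        (nz_mono hnz le_rfl ?_ ?_)
      · push_cast; linarith
      · push_cast; linarith
    intro z hz1 hz2 hz3 hz4
    have hsl : l T / 2 ≤ l z.im := slope hS (by linarith) hz3 hz4 (by linarith)
    have hok' : Ok C1 (l z.im) δ := ok_near hC1 (by linarith) hL2 hsl hok
    refine h5 y0 f l g hS c cs' hc hcs' z.im (θ + C2 * δ) δ (by linarith) (by linarith)
      (by linarith) hok' ?_ z rfl (by linarith) hz2
    exact nz_mono hnz2 le_rfl (by linarith) (by linarith)

end Pool.Agent.Q150.DS
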