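import Pool.Agent.Q66.DS.Basic

/-! # Project DS (helper66), jobs LAW and RATIO -/

set_option autoImplicit false

open MeasureTheory Set Metric

namespace Pool.Agent.Q150.DS

open Pool.Agent.Q66.DS

theorem e_sum {ι : Type} (s : Finset ι) (f : ι → ℝ) : e (∑ i ∈ s, f i) = ∏ i ∈ s, e (f i) := by
  classical
  induction s using Finset.induction_on with
  | empty => simp [e_zero]
  | insert a s ha ih => rw [Finset.sum_insert ha, Finset.prod_insert ha, e_add, ih]

/-- JOB LAW -/
theorem t_LAW : S_LAW := by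
  intro n μ t K L hμ hK hKμ hLμ
  set f : (Fin n → ℝ) → ℝ := fun a => ∑ i, t i * a i with hf
  have hfc : Continuous f := by simp only [hf]; fun_prop
  have hS : {z : ℝ | ∃ a : Fin n → ℝ, (∀ i, a i ∈ K) ∧ z = ∑ i, t i * a i} =
      f '' (univ.pi fun _ => K) := by
    ext z
    constructor
    · rintro ⟨a, ha, rfl⟩
      exact ⟨a, fun i _ => ha i, rfl⟩
    · rintro ⟨a, ha, rfl⟩
      exact ⟨a, fun i => ha i (mem_univ i), rfl⟩
  have hcl : IsClosed {z : ℝ | ∃ a : Fin n → ℝ, (∀ i, a i ∈ K) ∧ z = ∑ i, t i * a i} := by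
    rw [hS]
    exact ((isCompact_univ_pi fun _ => hK).image hfc).isClosed
  set P : Measure (Fin n → ℝ) := Measure.pi fun _ => μ with hP
  have hPp : IsProbabilityMeasure P := by rw [hP]; infer_instance
  have hae : ∀ {B : Set ℝ}, μ Bᶜ = 0 → ∀ᵐ a ∂P, ∀ i, a i ∈ B := by
    intro B hB
    rw [ae_all_iff]
    intro i
    have h1 : ∀ᵐ x ∂μ, x ∈ B := by rw [ae_iff]; exact hB
    exact (Measure.tendsto_eval_ae_ae (μ := fun _ : Fin n => μ) (i := i)).eventually h1
  refine ⟨hcl, P.map f, Measure.isProbabilityMeasure_map hfc.aemeasurable, ?_, ?_, ?_⟩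
  · intro ξ
    have h1 : ch (P.map f) ξ = ∫ a, e (ξ * f a) ∂P := by
      unfold ch
      rw [integral_map hfc.aemeasurable]
      exact (continuous_e.comp (by fun_prop)).aestronglyMeasurable
    have h2 : ∀ a : Fin n → ℝ, e (ξ * f a) = ∏ i, e ((t i * ξ) * a i) := by
      intro a
      rw [← e_sum]
      congr 1
      simp only [hf]
      rw [Finset.mul_sum]
      exact Finset.sum_congr rfl fun i _ => by ring
    rw [h1]
    simp_rw [h2]
    rw [hP]
    exact integral_fintype_prod_eq_prod (μ := fun _ : Fin n => μ)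
      (fun (i : Fin n) (x : ℝ) => e ((t i * ξ) * x))
  · rw [Measure.map_apply hfc.measurable hcl.measurableSet.compl]
    have h1 := hae hKμ
    rw [ae_iff] at h1
    refine measure_mono_null (fun a ha => ?_) h1
    intro hcon
    exact ha ⟨a, hcon, rfl⟩
  · refine ⟨1 + ∑ i, |t i| * |L|, by positivity, ?_⟩
    rw [Measure.map_apply hfc.measurable measurableSet_Icc.compl]
    have h1 := hae hLμ
    rw [ae_iff] at h1
    refine measure_mono_null (fun a ha => ?_) h1
    intro hcon
    apply ha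
    have h2 : |f a| ≤ 1 + ∑ i, |t i| * |L| := by
      have h3 : |f a| ≤ ∑ i, |t i * a i| := Finset.abs_sum_le_sum_abs _ _
      have h4 : ∑ i, |t i * a i| ≤ ∑ i, |t i| * |L| := by
        refine Finset.sum_le_sum fun i _ => ?_
        rw [abs_mul]
        refine mul_le_mul_of_nonneg_left ?_ (abs_nonneg _)
        have := hcon i
        exact (abs_le.2 ⟨this.1, this.2⟩).trans (le_abs_self L)
      linarith
    exact ⟨(abs_le.1 h2).1, (abs_le.1 h2).2⟩

/-- JOB RATIO -/
theorem t_RATIO (h1 : S_OSC) (h2 : S_GRAM) : S_RATIO := by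
  intro φ hφ R r hR hr D s w hs
  set F : ℝ → ℂ := fun ζ => φ ζ * (starRingEnd ℂ) (φ (r * ζ)) with hF
  have hFc : Continuous F := by
    simp only [hF]
    exact hφ.mul (Complex.continuous_conj.comp (hφ.comp (by fun_prop)))
  set ν : Measure ℝ := volume.restrict (Ioc R (6 * R)) with hν
  have hνf : IsFiniteMeasure ν := by
    rw [hν]
    exact ⟨by rw [Measure.restrict_apply_univ, Real.volume_Ioc]; exact ENNReal.ofReal_lt_top⟩
  set u : ℤ → ℝ → ℂ := fun i ζ => ((s i)⁻¹ : ℝ) * e (-(w i / s i) * ζ) with hu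
  have huc : ∀ i, Continuous (u i) := fun i => by
    simp only [hu]
    exact continuous_const.mul (continuous_e.comp (by fun_prop))
  set g : ℤ → ℝ → ℂ := fun i => (Ioc (s i * R) (s i * (2 * R))).indicator (u i) with hg
  have hFL : MemLp F 2 ν := by
    obtain ⟨C, hC⟩ := isCompact_Icc.exists_bound_of_continuousOn (s := Icc R (6 * R))
      (f := F) hFc.continuousOn
    refine MemLp.of_bound hFc.aestronglyMeasurable C ?_
    rw [hν]
    refine (ae_restrict_iff' measurableSet_Ioc).2 (Filter.Eventually.of_forall fun x hx => ?_)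
    exact hC x ⟨hx.1.le, hx.2⟩
  have hsinv : ∀ i ∈ D, (s i)⁻¹ ≤ 1 ∧ 0 < (s i)⁻¹ := fun i hi =>
    ⟨inv_le_one_of_one_le₀ (hs i hi).1, inv_pos.2 (by linarith [(hs i hi).1])⟩
  have hunorm : ∀ i ∈ D, ∀ x, ‖u i x‖ ≤ 1 := by
    intro i hi x
    simp only [hu]
    rw [norm_mul, norm_e, mul_one, Complex.norm_real, Real.norm_eq_abs,
      abs_of_pos (hsinv i hi).2]
    exact (hsinv i hi).1
  have hgL : ∀ i ∈ D, MemLp (g i) 2 ν := by
    intro i hi
    refine MemLp.of_bound ((huc i).aestronglyMeasurable.indicator measurableSet_Ioc) 1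
      (Filter.Eventually.of_forall fun x => ?_)
    simp only [hg]
    exact (norm_indicator_le_norm_self _ _).trans (hunorm i hi x)
  have hgram := h2 ν D F g hFL hgL
  -- the integrals of `F g_i`
  have hsub : ∀ i ∈ D, Ioc (s i * R) (s i * (2 * R)) ⊆ Ioc R (6 * R) := by
    intro i hi x hx
    obtain ⟨a1, a2⟩ := hs i hi
    exact ⟨lt_of_le_of_lt (by nlinarith) hx.1, hx.2.trans (by nlinarith)⟩
  have hL : ∀ i ∈ D, ∫ x, F x * g i x ∂ν =
      ∫ ξ in R..(2 * R), φ (s i * ξ) * (starRingEnd ℂ) (φ (r * (s i * ξ))) * e (-(w i * ξ)) := by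
    intro i hi
    have hsi : 0 < s i := by linarith [(hs i hi).1]
    have e1 : ∀ x, F x * g i x = (Ioc (s i * R) (s i * (2 * R))).indicator
        (fun x => F x * u i x) x := by
      intro x
      simp only [hg]
      by_cases hx : x ∈ Ioc (s i * R) (s i * (2 * R))
      · rw [indicator_of_mem hx, indicator_of_mem hx]
      · rw [indicator_of_notMem hx, indicator_of_notMem hx, mul_zero]
    simp_rw [e1]
    rw [integral_indicator measurableSet_Ioc, hν, Measure.restrict_restrict measurableSet_Ioc,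
      inter_eq_self_of_subset_left (hsub i hi),
      ← intervalIntegral.integral_of_le (by nlinarith : s i * R ≤ s i * (2 * R))]
    have hs0 : (s i : ℂ) ≠ 0 := by exact_mod_cast hsi.ne'
    have e3 : (s i : ℂ) * (((s i)⁻¹ : ℝ) : ℂ) = 1 := by
      push_cast
      exact mul_inv_cancel₀ hs0
    have e2 : ∫ x in s i * R..s i * (2 * R), F x * u i x =
        (s i : ℂ) * ∫ ξ in R..(2 * R), F (s i * ξ) * u i (s i * ξ) := by
      have := intervalIntegral.integral_comp_mul_left (a := R) (b := 2 * R)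
        (fun x => F x * u i x) hsi.ne'
      rw [this, Complex.real_smul, ← mul_assoc (s i : ℂ), e3, one_mul]
    rw [e2, ← intervalIntegral.integral_const_mul]
    refine intervalIntegral.integral_congr fun ξ _ => ?_
    simp only [hF, hu]
    have e4 : -(w i / s i) * (s i * ξ) = -(w i * ξ) := by field_simp
    rw [e4]
    have e5 : (s i : ℂ) * (φ (s i * ξ) * (starRingEnd ℂ) (φ (r * (s i * ξ))) *
        ((((s i)⁻¹ : ℝ) : ℂ) * e (-(w i * ξ)))) =
        φ (s i * ξ) * (starRingEnd ℂ) (φ (r * (s i * ξ))) * e (-(w i * ξ)) *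
          ((s i : ℂ) * (((s i)⁻¹ : ℝ) : ℂ)) := by ring
    rw [e5, e3, mul_one]
  -- the Gram matrix
  have hG : ∀ i ∈ D, ∀ j ∈ D, ‖∫ x, g i x * (starRingEnd ℂ) (g j x) ∂ν‖ ≤
      kr (3 * R) (w i / s i - w j / s j) := by
    intro i hi j hj
    obtain ⟨a1, a2⟩ := hs i hi
    obtain ⟨b1, b2⟩ := hs j hj
    set A := max (s i * R) (s j * R) with hA
    set B := min (s i * (2 * R)) (s j * (2 * R)) with hB
    set z := w i / s i - w j / s j with hz
    have e1 : ∀ x, g i x * (starRingEnd ℂ) (g j x) = (Ioc A B).indicator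
        (fun x => ((((s i)⁻¹ * (s j)⁻¹ : ℝ)) : ℂ) * e ((-z) * x)) x := by
      intro x
      simp only [hg]
      have hI : Ioc A B = Ioc (s i * R) (s i * (2 * R)) ∩ Ioc (s j * R) (s j * (2 * R)) := by
        rw [Ioc_inter_Ioc]
      rw [hI]
      by_cases hx : x ∈ Ioc (s i * R) (s i * (2 * R))
      · by_cases hy : x ∈ Ioc (s j * R) (s j * (2 * R))
        · have hxy : x ∈ Ioc (s i * R) (s i * (2 * R)) ∩ Ioc (s j * R) (s j * (2 * R)) := ⟨hx, hy⟩
          rw [indicator_of_mem hx, indicator_of_mem hy, indicator_of_mem hxy]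
          simp only [hu]
          rw [map_mul, conj_e, Complex.conj_ofReal]
          have e2 : (-z) * x = -(w i / s i) * x + -(-(w j / s j) * x) := by rw [hz]; ring
          rw [e2, e_add]
          push_cast
          ring
        · have hxy : x ∉ Ioc (s i * R) (s i * (2 * R)) ∩ Ioc (s j * R) (s j * (2 * R)) :=
            fun h => hy h.2
          rw [indicator_of_notMem hy, indicator_of_notMem hxy, map_zero, mul_zero]
      · have hxy : x ∉ Ioc (s i * R) (s i * (2 * R)) ∩ Ioc (s j * R) (s j * (2 * R)) :=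
          fun h => hx h.1
        rw [indicator_of_notMem hx, indicator_of_notMem hxy, zero_mul]
    simp_rw [e1]
    have hABsub : Ioc A B ⊆ Ioc R (6 * R) := fun x hx =>
      hsub i hi ⟨lt_of_le_of_lt (le_max_left _ _) hx.1, hx.2.trans (min_le_left _ _)⟩
    rw [integral_indicator measurableSet_Ioc, hν, Measure.restrict_restrict measurableSet_Ioc,
      inter_eq_self_of_subset_left hABsub]
    rcases le_total A B with hAB | hAB
    · rw [← intervalIntegral.integral_of_le hAB, intervalIntegral.integral_const_mul, norm_mul]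
      have hlen : B - A ≤ 3 * R := by
        have c1 : B ≤ s i * (2 * R) := min_le_left _ _
        have c2 : s i * R ≤ A := le_max_left _ _
        nlinarith
      have k1 := h1 (3 * R) A B (-z) (by positivity) hAB hlen
      rw [kr_neg] at k1
      have k2 : ‖((((s i)⁻¹ * (s j)⁻¹ : ℝ)) : ℂ)‖ ≤ 1 := by
        rw [Complex.norm_real, Real.norm_eq_abs, abs_of_pos (mul_pos (hsinv i hi).2 (hsinv j hj).2)]
        have := hsinv i hi
        have := hsinv j hj
        nlinarith
      calc _ ≤ 1 * kr (3 * R) z := mul_le_mul k2 k1 (norm_nonneg _) zero_le_one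
        _ = _ := one_mul _
    · rw [Ioc_eq_empty (not_lt.2 hAB), Measure.restrict_empty, integral_zero_measure, norm_zero]
      exact kr_nonneg _ _ (by positivity)
  have hFF : ∫ x, ‖F x‖ ^ 2 ∂ν = ∫ ζ in R..(6 * R), ‖φ ζ‖ ^ 2 * ‖φ (r * ζ)‖ ^ 2 := by
    rw [intervalIntegral.integral_of_le (by linarith), hν]
    refine integral_congr_ae (Filter.Eventually.of_forall fun x => ?_)
    simp only [hF]
    rw [norm_mul, RCLike.norm_conj, mul_pow]
  rw [Finset.sum_congr rfl fun i hi => by rw [← hL i hi], ← hFF]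
  refine hgram.trans ?_
  refine mul_le_mul_of_nonneg_left ?_ (integral_nonneg fun x => by positivity)
  exact Finset.sum_le_sum fun i hi => Finset.sum_le_sum fun j hj => hG i hi j hj

end Pool.Agent.Q150.DS
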